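import Mathlib

set_option autoImplicit false
set_option maxHeartbeats 400000
set_option linter.unusedSectionVars false

namespace Pool.Agent.H.MP_e51b07_al

open Finset

section A
variable {G X Y Ω : Type} [Fintype G] [Fintype X] [Fintype Y] [Fintype Ω]
  [DecidableEq X] [DecidableEq Y] [DecidableEq Ω]

theorem fib_mul (px : G → X) (dX : X → Ω) (c : ℕ) (hx : ∀ x, #{g | px g = x} = c) (ω : Ω) :
    #{g | dX (px g) = ω} = #{x | dX x = ω} * c := by
  rw [card_eq_sum_card_fiberwise (f := px) (t := {x | dX x = ω}) (fun g hg => by simpa using hg),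
    ← smul_eq_mul, ← sum_const]
  refine sum_congr rfl fun x h => ?_
  rw [← hx x, filter_filter]
  congr 1
  refine filter_congr fun g _ => ⟨fun k => k.2, fun k => ⟨?_, k⟩⟩
  rw [k]
  simpa using h

variable (px : G → X) (py : G → Y) (dX : X → Ω) (dY : Y → Ω) (c : ℕ)
  (hd : ∀ g, dX (px g) = dY (py g)) (hc : 0 < c)
  (hx : ∀ x, #{g | px g = x} = c) (hy : ∀ y, #{g | py g = y} = c)
  (hm : ∀ x y y', dY y = dY y' → #{g | px g = x ∧ py g = y} = #{g | px g = x ∧ py g = y'})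

include hd hc hx hy in
theorem t_eq (ω : Ω) : #{x | dX x = ω} = #{y | dY y = ω} := by
  have h1 := fib_mul px dX c hx ω
  have h2 := fib_mul py dY c hy ω
  simp only [hd] at h1
  exact Nat.eq_of_mul_eq_mul_right hc (h1.symm.trans h2)

include hd hx hm in
theorem m_mul (x : X) (y : Y) (h : dY y = dX x) :
    #{y | dY y = dX x} * #{g | px g = x ∧ py g = y} = c := by
  rw [← hx x, card_eq_sum_card_fiberwise (f := py) (s := {g | px g = x}) (t := {y | dY y = dX x})
    (fun g hg => by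
      have : px g = x := by simpa using hg
      simp [← hd, this]), ← smul_eq_mul, ← sum_const]
  refine sum_congr rfl fun y' h' => ?_
  rw [filter_filter]
  exact hm x y y' (h.trans (by simpa using h' : dY y' = dX x).symm)

omit [Fintype G] [Fintype X] [Fintype Y] [DecidableEq X] [DecidableEq Y] in
theorem card_T : Nat.card {T : Set G // (∀ x, ∃! t, t ∈ T ∧ px t = x) ∧ ∀ y, ∃! t, t ∈ T ∧ py t = y} =
    Nat.card (Σ σ : X ≃ Y, ∀ x, {g // px g = x ∧ py g = σ x}) := by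
  symm
  refine Nat.card_congr (Equiv.ofBijective (fun p => ⟨Set.range (fun x => (p.2 x).1), fun x => ?_,
    fun y => ?_⟩) ⟨?_, ?_⟩)
  · refine ⟨(p.2 x).1, ⟨⟨x, rfl⟩, (p.2 x).2.1⟩, ?_⟩
    rintro t ⟨⟨x', rfl⟩, h⟩
    obtain rfl : x' = x := (p.2 x').2.1.symm.trans h
    rfl
  · refine ⟨(p.2 (p.1.symm y)).1, ⟨⟨_, rfl⟩, (p.2 _).2.2.trans (by simp)⟩, ?_⟩
    rintro t ⟨⟨x', rfl⟩, h⟩
    obtain rfl : x' = p.1.symm y := p.1.eq_symm_apply.2 ((p.2 x').2.2.symm.trans h)
    rfl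
  · rintro ⟨σ, s⟩ ⟨σ', s'⟩ h
    have h1 : ∀ x, (s x).1 = (s' x).1 := fun x => by
      have h2 : (s x).1 ∈ Set.range (fun x => (s' x).1) := by
        have h0 : Set.range (fun x => (s x).1) = Set.range (fun x => (s' x).1) :=
          Subtype.ext_iff.1 h
        rw [← h0]
        exact ⟨x, rfl⟩
      obtain ⟨x', h3⟩ := h2
      obtain rfl : x' = x := by rw [← (s' x').2.1, ← (s x).2.1]; exact congrArg px h3
      exact h3.symm
    obtain rfl : σ = σ' := Equiv.ext fun x => by rw [← (s x).2.2, ← (s' x).2.2, h1]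
    exact congrArg _ (funext fun x => Subtype.ext (h1 x))
  · rintro ⟨T, h1, h2⟩
    choose s hs hs' using id h1
    have hb : Function.Bijective (fun x => py (s x)) := by
      constructor
      · intro x x' h
        obtain ⟨t, -, ht⟩ := h2 (py (s x))
        rw [← (hs x).2, ← (hs x').2, ht _ ⟨(hs x).1, rfl⟩, ht _ ⟨(hs x').1, h.symm⟩]
      · intro y
        obtain ⟨t, ⟨k1, k2⟩, -⟩ := h2 y
        exact ⟨px t, by simp only [← hs' _ t ⟨k1, rfl⟩, k2]⟩
    refine ⟨⟨Equiv.ofBijective _ hb, fun x => ⟨s x, (hs x).2, rfl⟩⟩, Subtype.ext ?_⟩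
    ext t
    exact ⟨by rintro ⟨x, rfl⟩; exact (hs x).1, fun k => ⟨px t, (hs' _ t ⟨k, rfl⟩).symm⟩⟩

include hd hc hx hy in
theorem card_compat : #{σ : X ≃ Y | ∀ x, dY (σ x) = dX x} = ∏ ω, (#{x | dX x = ω}).factorial := by
  have e : ∀ ω, {x // dX x = ω} ≃ {y // dY y = ω} := fun ω => Fintype.equivOfCardEq (by
    rw [Fintype.card_subtype, Fintype.card_subtype, t_eq px py dX dY c hd hc hx hy])
  have h0 := Equiv.ofFiberEquiv_map e
  generalize Equiv.ofFiberEquiv e = σ0 at h0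
  have h1 := DomMulAct.stabilizer_card dX
  simp only [Fintype.card_subtype] at h1
  rw [← h1]
  symm
  refine card_bij' (fun τ _ => τ.trans σ0) (fun σ _ => σ.trans σ0.symm) ?_ ?_ ?_ ?_
  · intro τ hτ
    simp only [mem_filter, mem_univ, true_and] at hτ ⊢
    intro x
    rw [Equiv.trans_apply, h0]
    exact congrFun hτ x
  · intro σ hσ
    simp only [mem_filter, mem_univ, true_and] at hσ ⊢
    funext x
    rw [Function.comp_apply, ← h0, ← hσ]
    simp
  · intro τ _
    ext x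
    simp
  · intro τ _
    ext x
    simp

include hd hc hx hy hm in
theorem formula :
    (Nat.card {T : Set G // (∀ x, ∃! t, t ∈ T ∧ px t = x) ∧ ∀ y, ∃! t, t ∈ T ∧ py t = y} : ℚ) /
      (c : ℚ) ^ Fintype.card X =
    ∏ ω, ((#{x | dX x = ω}).factorial : ℚ) / (#{x | dX x = ω} : ℚ) ^ #{x | dX x = ω} := by
  classical
  obtain ⟨t, ht⟩ : ∃ t : Ω → ℕ, ∀ ω, t ω = #{x | dX x = ω} := ⟨_, fun _ => rfl⟩
  have hc' : (c : ℚ) ≠ 0 := by positivity
  have h1 : ∀ (x : X) (y : Y), ((#{g | px g = x ∧ py g = y} : ℕ) : ℚ) =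
      if dY y = dX x then (c : ℚ) / t (dX x) else 0 := by
    intro x y
    split_ifs with h
    · have k := m_mul px py dX dY c hd hx hm x y h
      rw [← t_eq px py dX dY c hd hc hx hy, ← ht] at k
      have k2 : (t (dX x) : ℚ) ≠ 0 := by
        rintro k3
        rw [Nat.cast_eq_zero.1 k3] at k
        omega
      rw [eq_div_iff k2, ← k]
      push_cast
      ring
    · rw [Nat.cast_eq_zero, card_eq_zero, filter_eq_empty_iff]
      rintro g - ⟨rfl, rfl⟩
      exact h (hd g).symm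
  rw [card_T, Nat.card_sigma]
  simp only [Nat.card_pi]
  simp only [Nat.card_eq_fintype_card, Fintype.card_subtype, Nat.cast_sum,
    Nat.cast_prod, h1, prod_ite_zero, mem_univ, true_imp_iff, ← ht]
  rw [← sum_filter, sum_const, card_compat px py dX dY c hd hc hx hy, prod_div_distrib,
    prod_div_distrib, prod_const, card_univ, ← prod_fiberwise' (g := dX) (f := fun ω => (t ω : ℚ))]
  simp only [prod_const, ← ht, nsmul_eq_mul, Nat.cast_prod]
  field_simp

end A

theorem f_le (t : ℕ) : ((t + 1).factorial : ℚ) / ((t + 1 : ℕ) : ℚ) ^ (t + 1) ≤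
    (t.factorial : ℚ) / (t : ℚ) ^ t := by
  rcases Nat.eq_zero_or_pos t with rfl | ht
  · simp
  rw [Nat.factorial_succ, pow_succ', Nat.cast_mul, mul_div_mul_left _ _ (by positivity)]
  gcongr
  omega

theorem f_small (t : ℕ) (ht : 6 ≤ t) : (t.factorial : ℚ) / (t : ℚ) ^ t < 12 / 625 := by
  induction t, ht using Nat.le_induction with
  | base => norm_num [Nat.factorial]
  | succ t _ ih => exact (f_le t).trans_lt ih

theorem f_le_one (t : ℕ) : (t.factorial : ℚ) / (t : ℚ) ^ t ≤ 1 := by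
  induction t with
  | zero => simp
  | succ t ih => exact (f_le t).trans ih

theorem arith (a b c d : ℕ)
    (h : (1 / 2 : ℚ) ^ a * (2 / 9) ^ b * (3 / 32) ^ c * (24 / 625) ^ d = 12 / 625) :
    a = 1 ∧ b = 0 ∧ c = 0 ∧ d = 1 := by
  have bd : ∀ (q : ℚ) (n k : ℕ), 0 ≤ q → q ≤ 1 → q ^ k < 12 / 625 → 12 / 625 ≤ q ^ n → n < k := by
    intro q n k h0 h1 h2 h3
    by_contra h4
    exact absurd (h3.trans (pow_le_pow_of_le_one h0 h1 (not_lt.1 h4))) (not_le.2 h2)
  have p1 : (1 / 2 : ℚ) ^ a ≤ 1 := pow_le_one₀ (by norm_num) (by norm_num)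
  have p2 : (2 / 9 : ℚ) ^ b ≤ 1 := pow_le_one₀ (by norm_num) (by norm_num)
  have p3 : (3 / 32 : ℚ) ^ c ≤ 1 := pow_le_one₀ (by norm_num) (by norm_num)
  have p4 : (24 / 625 : ℚ) ^ d ≤ 1 := pow_le_one₀ (by norm_num) (by norm_num)
  have ha := bd (1 / 2) a 6 (by norm_num) (by norm_num) (by norm_num) (by
    rw [← h]
    calc _ ≤ (1 / 2 : ℚ) ^ a * 1 * 1 * 1 := by gcongr
      _ = _ := by ring)
  have hb := bd (2 / 9) b 3 (by norm_num) (by norm_num) (by norm_num) (by
    rw [← h]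
    calc _ ≤ 1 * (2 / 9 : ℚ) ^ b * 1 * 1 := by gcongr
      _ = _ := by ring)
  have hc := bd (3 / 32) c 2 (by norm_num) (by norm_num) (by norm_num) (by
    rw [← h]
    calc _ ≤ 1 * 1 * (3 / 32 : ℚ) ^ c * 1 := by gcongr
      _ = _ := by ring)
  have hd := bd (24 / 625) d 2 (by norm_num) (by norm_num) (by norm_num) (by
    rw [← h]
    calc _ ≤ 1 * 1 * 1 * (24 / 625 : ℚ) ^ d := by gcongr
      _ = _ := by ring)
  interval_cases a <;> interval_cases b <;> interval_cases c <;> interval_cases d <;>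
    first | exact ⟨rfl, rfl, rfl, rfl⟩ | (exfalso; norm_num at h)

theorem shape {Ω : Type} [Fintype Ω] (t : Ω → ℕ)
    (h : ∏ ω, ((t ω).factorial : ℚ) / (t ω : ℚ) ^ t ω = 12 / 625) :
    (∃! ω, t ω = 2) ∧ (∃! ω, t ω = 5) ∧ ∀ ω, t ω ≤ 1 ∨ t ω = 2 ∨ t ω = 5 := by
  classical
  have h6 : ∀ ω, t ω ∈ range 6 := by
    intro ω
    rw [mem_range]
    by_contra k
    have k1 := f_small _ (not_lt.1 k)
    rw [← h, ← mul_prod_erase univ _ (mem_univ ω)] at k1
    refine absurd k1 (not_lt.2 (mul_le_of_le_one_right (by positivity) ?_))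
    exact prod_le_one (fun _ _ => by positivity) fun _ _ => f_le_one _
  rw [← prod_fiberwise_of_maps_to' (fun ω _ => h6 ω) (fun k => (k.factorial : ℚ) / (k : ℚ) ^ k)] at h
  simp only [prod_range_succ, prod_range_zero, prod_const] at h
  obtain ⟨a, b, c, d⟩ := arith #{ω | t ω = 2} #{ω | t ω = 3} #{ω | t ω = 4} #{ω | t ω = 5} (by
    rw [← h]
    norm_num [Nat.factorial])
  refine ⟨by simpa using card_eq_one_iff_existsUnique.1 a,
    by simpa using card_eq_one_iff_existsUnique.1 d, fun ω => ?_⟩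
  have k1 : t ω ≠ 3 := by simpa using filter_eq_empty_iff.1 (card_eq_zero.1 b) (mem_univ ω)
  have k2 : t ω ≠ 4 := by simpa using filter_eq_empty_iff.1 (card_eq_zero.1 c) (mem_univ ω)
  have := mem_range.1 (h6 ω)
  omega

end Pool.Agent.H.MP_e51b07_al
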